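import Mathlib

/-!
# Project TR (two-row case of the strengthened Foulkes conjecture, MP_e7aee3_al): definitions

Symmetric polynomials in `r` variables, the operators `D_k` of Sekiguchi and Debiard (divided by
the Vandermonde determinant), the operators `E`, `F_x`, and the operators built from them.
-/

set_option autoImplicit false

open MvPolynomial Finset

namespace Helper87.TR

variable {r : ℕ} {R : Type*} [CommRing R]

/-- exponent vectors from functions -/
noncomputable def fs (l : Fin r → ℕ) : Fin r →₀ ℕ := Finsupp.equivFunOnFinite.symm l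

@[simp] lemma fs_apply (l : Fin r → ℕ) (i : Fin r) : fs l i = l i := rfl

lemma fs_coe (a : Fin r →₀ ℕ) : fs (fun i => a i) = a := by
  ext i; rfl

/-- the exponent vector `(τ 0, ..., τ (r - 1))` -/
noncomputable def pe (τ : Equiv.Perm (Fin r)) : Fin r →₀ ℕ := fs fun i => (τ i : ℕ)

@[simp] lemma pe_apply (τ : Equiv.Perm (Fin r)) (i : Fin r) : pe τ i = (τ i : ℕ) := rfl

/-- `z ^ a ↦ ∑ τ, sign τ (∏ i ∈ S, (a i - c τ i)) z ^ (a + τ)` -/
noncomputable def dS (c : R) (S : Finset (Fin r)) :
    MvPolynomial (Fin r) R →ₗ[R] MvPolynomial (Fin r) R :=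
  (basisMonomials (Fin r) R).constr R fun a => ∑ τ : Equiv.Perm (Fin r),
    monomial (a + pe τ)
      (((Equiv.Perm.sign τ : ℤ) : R) * ∏ i ∈ S, ((a i : R) - c * ((τ i : ℕ) : R)))

/-- the `k`-th operator before the division by the Vandermonde determinant -/
noncomputable def dK (c : R) (k : ℕ) : MvPolynomial (Fin r) R →ₗ[R] MvPolynomial (Fin r) R :=
  ∑ S ∈ powersetCard k (univ : Finset (Fin r)), dS c S

variable (r R) in
/-- the Vandermonde determinant `∑ τ, sign τ z ^ τ` -/
noncomputable def vd : MvPolynomial (Fin r) R :=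
  ∑ τ : Equiv.Perm (Fin r), monomial (pe τ) ((Equiv.Perm.sign τ : ℤ) : R)

variable (r R) in
/-- symmetric polynomials in `r` variables -/
abbrev Lam := ↥(symmetricSubalgebra (Fin r) R)

lemma dS_monomial (c : R) (S : Finset (Fin r)) (a : Fin r →₀ ℕ) (v : R) :
    dS c S (monomial a v) = ∑ τ : Equiv.Perm (Fin r), monomial (a + pe τ)
      (v * (((Equiv.Perm.sign τ : ℤ) : R) * ∏ i ∈ S, ((a i : R) - c * ((τ i : ℕ) : R)))) := by
  have h : (monomial a v : MvPolynomial (Fin r) R) = v • monomial a 1 := by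
    rw [smul_monomial, smul_eq_mul, mul_one]
  have h2 : (monomial a 1 : MvPolynomial (Fin r) R) = basisMonomials (Fin r) R a := by
    rw [coe_basisMonomials]
  rw [h, map_smul, h2, dS, Module.Basis.constr_basis, smul_sum]
  refine sum_congr rfl fun τ _ => ?_
  rw [smul_monomial, smul_eq_mul]

/-- the coefficient `∑_{|S| = k} ∏_{i ∈ S} (a i - c τ i)` -/
noncomputable def cf (c : R) (k : ℕ) (a : Fin r → ℕ) (τ : Equiv.Perm (Fin r)) : R :=
  ∑ S ∈ powersetCard k (univ : Finset (Fin r)), ∏ i ∈ S, ((a i : R) - c * ((τ i : ℕ) : R))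

lemma dK_monomial (c : R) (k : ℕ) (a : Fin r →₀ ℕ) (v : R) :
    dK c k (monomial a v) = ∑ τ : Equiv.Perm (Fin r), monomial (a + pe τ)
      (v * (((Equiv.Perm.sign τ : ℤ) : R) * cf c k a τ)) := by
  rw [dK, LinearMap.sum_apply]
  simp_rw [dS_monomial]
  rw [sum_comm]
  refine sum_congr rfl fun τ _ => ?_
  rw [cf, mul_sum, mul_sum, map_sum]

/-- the alternant with exponents `b` -/
noncomputable def alt (R : Type*) [CommRing R] (b : Fin r → ℕ) : MvPolynomial (Fin r) R :=
  ∑ σ : Equiv.Perm (Fin r), monomial (fs fun i => b (σ i)) ((Equiv.Perm.sign σ : ℤ) : R)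

lemma monomial_fs (l : Fin r → ℕ) (v : R) :
    (monomial (fs l) v : MvPolynomial (Fin r) R) = C v * ∏ i, X i ^ l i := by
  rw [monomial_eq, Finsupp.prod_fintype _ _ (fun i => pow_zero _)]
  rfl

lemma alt_eq_det (b : Fin r → ℕ) :
    alt R b = (Matrix.of fun i j : Fin r => (X i : MvPolynomial (Fin r) R) ^ b j).det := by
  rw [← Matrix.det_transpose, Matrix.det_apply', alt]
  refine sum_congr rfl fun σ _ => ?_
  rw [monomial_fs]
  simp

lemma vd_eq_alt : vd r R = alt R (fun i : Fin r => (i : ℕ)) := rfl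

lemma vd_eq_det : vd r R = (Matrix.vandermonde (X : Fin r → MvPolynomial (Fin r) R)).det := by
  rw [vd_eq_alt, alt_eq_det]
  rfl

lemma vd_dvd_alt (b : Fin r → ℕ) : vd r R ∣ alt R b := by
  classical
  nontriviality R
  set w : Polynomial (MvPolynomial (Fin r) R) := ∏ i : Fin r, (Polynomial.X - Polynomial.C (X i))
    with hw
  have hm : w.Monic := Polynomial.monic_prod_of_monic _ _ fun i _ => Polynomial.monic_X_sub_C _
  have hdeg : w.natDegree = r := by
    rw [hw, Polynomial.natDegree_prod_of_monic _ _ (fun i _ => Polynomial.monic_X_sub_C _)]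
    simp
  have hroot : ∀ i, w.eval (X i) = 0 := by
    intro i
    rw [hw, Polynomial.eval_prod]
    exact prod_eq_zero (mem_univ i) (by simp)
  have hM : (Matrix.of fun i j : Fin r => (X i : MvPolynomial (Fin r) R) ^ b j) =
      Matrix.vandermonde (X : Fin r → MvPolynomial (Fin r) R) *
        Matrix.of fun s j : Fin r => ((Polynomial.X ^ b j : Polynomial _) %ₘ w).coeff s := by
    ext1 i j
    rw [Matrix.mul_apply]
    simp only [Matrix.of_apply, Matrix.vandermonde_apply]
    have h1 : ((Polynomial.X ^ b j : Polynomial (MvPolynomial (Fin r) R)) %ₘ w).eval (X i) =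
        X i ^ b j := by
      have := Polynomial.modByMonic_add_div (Polynomial.X ^ b j : Polynomial (MvPolynomial (Fin r) R)) w
      have h2 := congrArg (Polynomial.eval (X i : MvPolynomial (Fin r) R)) this
      rw [Polynomial.eval_add, Polynomial.eval_mul, hroot, zero_mul, add_zero,
        Polynomial.eval_pow, Polynomial.eval_X] at h2
      exact h2
    rw [← h1]
    by_cases hr : r = 0
    · subst hr
      exact i.elim0
    have h3 : ((Polynomial.X ^ b j : Polynomial (MvPolynomial (Fin r) R)) %ₘ w).natDegree < r := by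
      refine lt_of_lt_of_eq (Polynomial.natDegree_modByMonic_lt _ hm ?_) hdeg
      intro h
      rw [h] at hdeg
      simp at hdeg
      exact hr hdeg.symm
    rw [Polynomial.eval_eq_sum_range' h3, Finset.sum_range]
    refine sum_congr rfl fun s _ => ?_
    ring
  rw [alt_eq_det, hM, Matrix.det_mul, ← vd_eq_det]
  exact dvd_mul_right _ _

lemma vd_ne_zero [Nontrivial R] : vd r R ≠ 0 := by
  intro h
  have h1 : coeff (pe (1 : Equiv.Perm (Fin r))) (vd r R) = 1 := by
    rw [vd, coeff_sum, sum_eq_single 1]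
    · rw [coeff_monomial]
      simp
    · intro τ _ hτ
      rw [coeff_monomial, if_neg]
      intro h2
      apply hτ
      ext i
      have := DFunLike.congr_fun h2 i
      simpa using this
    · simp
  rw [h] at h1
  simp at h1

lemma rename_monomial_fs (σ : Equiv.Perm (Fin r)) (a : Fin r → ℕ) (v : R) :
    rename σ (monomial (fs a) v) = monomial (fs fun i => a (σ⁻¹ i)) v := by
  rw [rename_monomial]
  have h : Finsupp.mapDomain σ (fs a) = fs fun i => a (σ⁻¹ i) := by
    ext i
    rw [Finsupp.mapDomain_equiv_apply]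
    rfl
  rw [h]

lemma rename_alt (σ : Equiv.Perm (Fin r)) (b : Fin r → ℕ) :
    rename σ (alt R b) = C ((Equiv.Perm.sign σ : ℤ) : R) * alt R b := by
  rw [alt, map_sum, mul_sum]
  rw [← Equiv.sum_comp (Equiv.mulRight σ⁻¹)
    (fun τ : Equiv.Perm (Fin r) => C ((Equiv.Perm.sign σ : ℤ) : R) *
      monomial (fs fun i => b (τ i)) ((Equiv.Perm.sign τ : ℤ) : R))]
  refine sum_congr rfl fun τ _ => ?_
  rw [rename_monomial_fs, Equiv.coe_mulRight, C_mul_monomial]
  congr 1
  rw [map_mul, Equiv.Perm.sign_inv]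
  have h : ((Equiv.Perm.sign σ : ℤ) : R) * ((Equiv.Perm.sign σ : ℤ) : R) = 1 := by
    rw [← Int.cast_mul, ← Units.val_mul, Int.units_mul_self]
    simp
  push_cast
  rw [mul_comm ((Equiv.Perm.sign τ : ℤ) : R), ← mul_assoc, h, one_mul]

/-- the sum over all permutations of the exponents -/
noncomputable def sm (R : Type*) [CommRing R] (a : Fin r → ℕ) : MvPolynomial (Fin r) R :=
  ∑ σ : Equiv.Perm (Fin r), monomial (fs fun i => a (σ i)) 1

lemma cf_comp (c : R) (k : ℕ) (a : Fin r → ℕ) (σ π : Equiv.Perm (Fin r)) :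
    cf c k (fun i => a (σ i)) (π * σ) = cf c k a π := by
  classical
  rw [cf, cf]
  refine sum_bij' (fun S _ => S.map σ.toEmbedding) (fun S _ => S.map σ.symm.toEmbedding)
    ?_ ?_ ?_ ?_ ?_
  · intro S hS
    rw [mem_powersetCard] at hS ⊢
    exact ⟨subset_univ _, by rw [card_map]; exact hS.2⟩
  · intro S hS
    rw [mem_powersetCard] at hS ⊢
    exact ⟨subset_univ _, by rw [card_map]; exact hS.2⟩
  · intro S _
    ext i
    simp
  · intro S _
    ext i
    simp
  · intro S _
    rw [prod_map]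
    rfl

lemma dK_sm (c : R) (k : ℕ) (a : Fin r → ℕ) :
    dK c k (sm R a) = ∑ π : Equiv.Perm (Fin r),
      C (((Equiv.Perm.sign π : ℤ) : R) * cf c k a π) * alt R (fun i => a i + (π i : ℕ)) := by
  rw [sm, map_sum]
  simp_rw [dK_monomial, alt, mul_sum]
  rw [sum_comm]
  conv_rhs => rw [sum_comm]
  -- left: sum over τ, σ ; right: sum over σ, π
  rw [sum_comm]
  refine sum_congr rfl fun σ _ => ?_
  rw [← Equiv.sum_comp (Equiv.mulRight σ)
    (fun τ : Equiv.Perm (Fin r) => monomial ((fs fun i => a (σ i)) + pe τ)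
      ((1 : R) * (((Equiv.Perm.sign τ : ℤ) : R) * cf c k (fs fun i => a (σ i)) τ)))]
  refine sum_congr rfl fun π _ => ?_
  rw [Equiv.coe_mulRight, C_mul_monomial]
  have h1 : cf c k (fs fun i => a (σ i)) (π * σ) = cf c k a π := cf_comp c k a σ π
  have h2 : (fs fun i => a (σ i)) + pe (π * σ) = fs fun i => a (σ i) + (π (σ i) : ℕ) := by
    ext i; simp
  rw [h1, h2, Equiv.Perm.sign_mul]
  congr 1
  push_cast
  ring

lemma vd_dvd_dK_sm (c : R) (k : ℕ) (a : Fin r → ℕ) : vd r R ∣ dK c k (sm R a) := by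
  rw [dK_sm]
  exact dvd_sum fun π _ => (vd_dvd_alt _).mul_left _

lemma sum_rename_monomial (a : Fin r →₀ ℕ) (v : R) :
    ∑ σ : Equiv.Perm (Fin r), rename σ (monomial a v) = C v * sm R (fun i => a i) := by
  rw [sm, mul_sum, ← Equiv.sum_comp (Equiv.inv (Equiv.Perm (Fin r)))]
  refine sum_congr rfl fun σ _ => ?_
  rw [← fs_coe a, rename_monomial_fs, C_mul_monomial, mul_one]
  simp [fs_coe]

lemma vd_dvd_dK_symm (c : R) (k : ℕ) (f : MvPolynomial (Fin r) R) :
    vd r R ∣ dK c k (∑ σ : Equiv.Perm (Fin r), rename σ f) := by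
  induction f using MvPolynomial.induction_on' with
  | monomial a v =>
    rw [sum_rename_monomial, ← smul_eq_C_mul, map_smul, smul_eq_C_mul]
    exact (vd_dvd_dK_sm _ _ _).mul_left _
  | add p q hp hq =>
    simp_rw [map_add, sum_add_distrib, map_add]
    exact dvd_add hp hq

lemma vd_dvd_dK [Algebra ℚ R] (c : R) (k : ℕ) (f : MvPolynomial (Fin r) R)
    (hf : f.IsSymmetric) : vd r R ∣ dK c k f := by
  have h1 : ∑ σ : Equiv.Perm (Fin r), rename σ f = ((r.factorial : ℕ) : R) • f := by
    rw [sum_congr rfl fun σ _ => hf σ, sum_const, card_univ, Fintype.card_perm, Fintype.card_fin,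
      Nat.cast_smul_eq_nsmul]
  have h2 := vd_dvd_dK_symm c k f
  rw [h1, map_smul] at h2
  have h3 : algebraMap ℚ R ((r.factorial : ℚ)⁻¹) * ((r.factorial : ℕ) : R) = 1 := by
    rw [← map_natCast (algebraMap ℚ R), ← map_mul, inv_mul_cancel₀, map_one]
    exact_mod_cast r.factorial_ne_zero
  have h4 : dK c k f =
      C (algebraMap ℚ R ((r.factorial : ℚ)⁻¹)) * (((r.factorial : ℕ) : R) • dK c k f) := by
    rw [smul_eq_C_mul, ← mul_assoc, ← C_mul, h3, C_1, one_mul]
  rw [h4]
  exact h2.mul_left _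

lemma rename_dK (c : R) (k : ℕ) (f : MvPolynomial (Fin r) R) (σ : Equiv.Perm (Fin r)) :
    rename σ (dK c k f) = C ((Equiv.Perm.sign σ : ℤ) : R) * dK c k (rename σ f) := by
  induction f using MvPolynomial.induction_on' with
  | monomial a v =>
    rw [← fs_coe a, rename_monomial_fs, dK_monomial, dK_monomial, map_sum, mul_sum]
    rw [← Equiv.sum_comp (Equiv.mulRight σ⁻¹) (fun τ : Equiv.Perm (Fin r) =>
      C ((Equiv.Perm.sign σ : ℤ) : R) * monomial ((fs fun i => a (σ⁻¹ i)) + pe τ)
        (v * (((Equiv.Perm.sign τ : ℤ) : R) * cf c k (fs fun i => a (σ⁻¹ i)) τ)))]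
    refine sum_congr rfl fun τ _ => ?_
    have h0 : (fs fun i => a i) + pe τ = fs fun i => a i + (τ i : ℕ) := by
      ext i; simp
    rw [h0, rename_monomial_fs, Equiv.coe_mulRight, C_mul_monomial]
    have h1 : cf c k (fs fun i => a (σ⁻¹ i)) (τ * σ⁻¹) = cf c k (fs fun i => a i) τ :=
      cf_comp c k (fun i => a i) σ⁻¹ τ
    have h2 : (fs fun i => a (σ⁻¹ i)) + pe (τ * σ⁻¹) = fs fun i => a (σ⁻¹ i) + (τ (σ⁻¹ i) : ℕ) := by
      ext i; simp
    rw [h1, h2, Equiv.Perm.sign_mul, Equiv.Perm.sign_inv]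
    congr 1
    have h : ((Equiv.Perm.sign σ : ℤ) : R) * ((Equiv.Perm.sign σ : ℤ) : R) = 1 := by
      rw [← Int.cast_mul, ← Units.val_mul, Int.units_mul_self]
      simp
    push_cast
    linear_combination (- v * ((Equiv.Perm.sign τ : ℤ) : R) * cf c k (fs fun i => a i) τ) * h
  | add p q hp hq =>
    rw [map_add, map_add, hp, hq, map_add, map_add, mul_add]

theorem exists_DK [Algebra ℚ R] [IsDomain R] (c : R) (k : ℕ) (f : Lam r R) :
    ∃ g : Lam r R, vd r R * (g : MvPolynomial (Fin r) R) = dK c k f := by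
  have hf : IsSymmetric (f : MvPolynomial (Fin r) R) := (mem_symmetricSubalgebra _).1 f.2
  obtain ⟨g, hg⟩ := vd_dvd_dK c k (f : MvPolynomial (Fin r) R) hf
  have hs : g.IsSymmetric := by
    intro σ
    have h1 := congrArg (rename σ) hg
    rw [rename_dK, hf σ, map_mul, vd_eq_alt, rename_alt,
      ← vd_eq_alt, hg, mul_assoc] at h1
    have h2 : C ((Equiv.Perm.sign σ : ℤ) : R) ≠ (0 : MvPolynomial (Fin r) R) := by
      rcases Int.units_eq_one_or (Equiv.Perm.sign σ) with h | h <;> simp [h]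
    have h3 := mul_left_cancel₀ h2 h1
    exact (mul_left_cancel₀ vd_ne_zero h3).symm
  exact ⟨⟨g, (mem_symmetricSubalgebra _).2 hs⟩, hg.symm⟩

section DK

variable [Algebra ℚ R] [IsDomain R]

/-- the operator `D_k` on symmetric polynomials: `vd * D_k f = dK f` -/
noncomputable def DK (c : R) (k : ℕ) : Lam r R →ₗ[R] Lam r R where
  toFun f := (exists_DK c k f).choose
  map_add' f g := by
    apply Subtype.ext
    refine mul_left_cancel₀ (vd_ne_zero (r := r) (R := R)) ?_
    rw [(exists_DK c k (f + g)).choose_spec]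
    push_cast
    rw [mul_add, (exists_DK c k f).choose_spec, (exists_DK c k g).choose_spec, map_add]
  map_smul' a f := by
    apply Subtype.ext
    refine mul_left_cancel₀ (vd_ne_zero (r := r) (R := R)) ?_
    rw [(exists_DK c k (a • f)).choose_spec]
    simp only [RingHom.id_apply, SetLike.val_smul, map_smul]
    rw [mul_smul_comm, (exists_DK c k f).choose_spec]

lemma vd_mul_DK (c : R) (k : ℕ) (f : Lam r R) :
    vd r R * (DK c k f : MvPolynomial (Fin r) R) = dK c k f := (exists_DK c k f).choose_spec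

/-- `D(u) = ∑ u ^ (r - k) D_k` -/
noncomputable def DD (c u : R) : Lam r R →ₗ[R] Lam r R :=
  ∑ k ∈ range (r + 1), u ^ (r - k) • DK c k

/-- `D(u)` before the division by the Vandermonde determinant -/
noncomputable def dd (c u : R) : MvPolynomial (Fin r) R →ₗ[R] MvPolynomial (Fin r) R :=
  ∑ k ∈ range (r + 1), u ^ (r - k) • dK c k

end DK

section EF

/-- restriction to symmetric polynomials -/
noncomputable def restr (T : MvPolynomial (Fin r) R →ₗ[R] MvPolynomial (Fin r) R)
    (h : ∀ f : MvPolynomial (Fin r) R, f.IsSymmetric → (T f).IsSymmetric) :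
    Lam r R →ₗ[R] Lam r R where
  toFun f := ⟨T (f : MvPolynomial (Fin r) R),
    (mem_symmetricSubalgebra _).2 (h _ ((mem_symmetricSubalgebra _).1 f.2))⟩
  map_add' f g := Subtype.ext (map_add T (f : MvPolynomial (Fin r) R) (g : MvPolynomial (Fin r) R))
  map_smul' a f := Subtype.ext (map_smul T a (f : MvPolynomial (Fin r) R))

variable (r R) in
/-- `E = ∑ ∂ / ∂ z_i` on all polynomials -/
noncomputable def pE : MvPolynomial (Fin r) R →ₗ[R] MvPolynomial (Fin r) R :=
  ∑ i : Fin r, ((pderiv i : Derivation R _ _) : MvPolynomial (Fin r) R →ₗ[R] MvPolynomial (Fin r) R)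

lemma pE_apply (f : MvPolynomial (Fin r) R) : pE r R f = ∑ i, pderiv i f := by
  rw [pE, LinearMap.sum_apply]
  rfl

/-- `F_x = ∑ (z_i ^ 2 ∂ / ∂ z_i + x z_i)` on all polynomials -/
noncomputable def pF (x : R) : MvPolynomial (Fin r) R →ₗ[R] MvPolynomial (Fin r) R :=
  ∑ i : Fin r, (LinearMap.mulLeft R (X i ^ 2) ∘ₗ
    ((pderiv i : Derivation R _ _) : MvPolynomial (Fin r) R →ₗ[R] MvPolynomial (Fin r) R) +
      x • LinearMap.mulLeft R (X i))

lemma pF_apply (x : R) (f : MvPolynomial (Fin r) R) :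
    pF x f = ∑ i, (X i ^ 2 * pderiv i f + C x * (X i * f)) := by
  rw [pF, LinearMap.sum_apply]
  refine sum_congr rfl fun i _ => ?_
  rw [LinearMap.add_apply, LinearMap.smul_apply, smul_eq_C_mul]
  rfl

lemma rename_pderiv_symm (f : MvPolynomial (Fin r) R) (hf : f.IsSymmetric)
    (σ : Equiv.Perm (Fin r)) (i : Fin r) : rename σ (pderiv i f) = pderiv (σ i) f := by
  conv_rhs => rw [← hf σ]
  rw [pderiv_rename σ.injective]

lemma isSymmetric_pE (f : MvPolynomial (Fin r) R) (hf : f.IsSymmetric) :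
    (pE r R f).IsSymmetric := by
  intro σ
  rw [pE_apply, map_sum, ← Equiv.sum_comp σ (fun i => pderiv i f)]
  exact sum_congr rfl fun i _ => rename_pderiv_symm f hf σ i

lemma isSymmetric_pF (x : R) (f : MvPolynomial (Fin r) R) (hf : f.IsSymmetric) :
    (pF x f).IsSymmetric := by
  intro σ
  rw [pF_apply, map_sum, ← Equiv.sum_comp σ (fun i => X i ^ 2 * pderiv i f + C x * (X i * f))]
  refine sum_congr rfl fun i _ => ?_
  rw [map_add, map_mul, map_mul, map_mul, map_pow, rename_pderiv_symm f hf, rename_X, hf σ,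
    rename_C]

variable (r R) in
/-- `E = ∑ ∂ / ∂ z_i` -/
noncomputable def EE : Module.End R (Lam r R) := restr (pE r R) isSymmetric_pE

lemma coe_EE (f : Lam r R) :
    (EE r R f : MvPolynomial (Fin r) R) = pE r R f := rfl

/-- `F_x = ∑ (z_i ^ 2 ∂ / ∂ z_i + x z_i)` -/
noncomputable def FF (x : R) : Module.End R (Lam r R) := restr (pF x) (isSymmetric_pF x)

lemma coe_FF (x : R) (f : Lam r R) : (FF x f : MvPolynomial (Fin r) R) = pF x f := rfl

variable (r R) in
/-- elementary symmetric polynomials as elements of `Lam r R` -/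
noncomputable def ee (k : ℕ) : Lam r R :=
  ⟨esymm (Fin r) R k, (mem_symmetricSubalgebra _).2 (esymm_isSymmetric _ _ _)⟩

/-- multiplication by an element of `Lam r R` -/
noncomputable def mu (f : Lam r R) : Module.End R (Lam r R) := LinearMap.mulLeft R f

@[simp] lemma mu_apply (f g : Lam r R) : mu f g = f * g := rfl

variable (r R) in
/-- the constant coefficient -/
noncomputable def ev0 : Lam r R →ₗ[R] R where
  toFun f := constantCoeff (f : MvPolynomial (Fin r) R)
  map_add' f g := by simp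
  map_smul' a f := by simp

lemma ev0_apply (f : Lam r R) : ev0 r R f = constantCoeff (f : MvPolynomial (Fin r) R) := rfl

variable (r R) in
/-- coordinates of symmetric polynomials as polynomials in `e_1, ..., e_r` -/
noncomputable def co : Lam r R ≃ₐ[R] MvPolynomial (Fin r) R :=
  (esymmAlgEquiv (Fin r) R (Fintype.card_fin r)).symm

end EF

section Ops

variable [Algebra ℚ R] [IsDomain R]

/-- `e_k(∇) = (1 / k!) ad(E)^k D_k`, `ad(E) A = E A - A E` -/
noncomputable def nab (c : R) (k : ℕ) : Module.End R (Lam r R) :=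
  algebraMap ℚ R ((k.factorial : ℚ)⁻¹) •
    (fun A : Module.End R (Lam r R) => EE r R * A - A * EE r R)^[k] (DK c k)

/-- `R_k = (1 / k!) ad(F_x)^k D_k`, `ad(F) A = A F - F A` -/
noncomputable def RR (c x : R) (k : ℕ) : Module.End R (Lam r R) :=
  algebraMap ℚ R ((k.factorial : ℚ)⁻¹) •
    (fun A : Module.End R (Lam r R) => A * FF x - FF x * A)^[k] (DK c k)

/-- the product `e_1(∇) ^ α 0 * ... * e_r(∇) ^ α (r - 1)` -/
noncomputable def nabm (c : R) (α : Fin r → ℕ) : Module.End R (Lam r R) :=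
  (List.ofFn fun k : Fin r => nab c (k + 1) ^ α k).prod

/-- the product `R_r ^ α (r - 1) * ... * R_1 ^ α 0` -/
noncomputable def RRm (c x : R) (α : Fin r → ℕ) : Module.End R (Lam r R) :=
  (List.ofFn fun k : Fin r => RR c x (k + 1) ^ α k).reverse.prod

/-- the map `f(e) ↦ f(R) 1` -/
noncomputable def GG (c x : R) : Lam r R →ₗ[R] Lam r R :=
  (basisMonomials (Fin r) R).constr R (fun α => RRm c x α 1) ∘ₗ (co r R).toLinearMap

/-- the bilinear form `(f(e), g) ↦ constant coefficient of f(∇) g` -/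
noncomputable def JJ (c : R) : Lam r R →ₗ[R] Lam r R →ₗ[R] R :=
  (basisMonomials (Fin r) R).constr R (fun α => ev0 r R ∘ₗ nabm c α) ∘ₗ (co r R).toLinearMap

end Ops

section Kernel

/-- coefficientwise application of a linear map -/
noncomputable def cw {A B : Type*} [CommRing A] [CommRing B] [Algebra ℚ A] [Algebra ℚ B]
    (φ : A →ₗ[ℚ] B) : MvPolynomial (Fin r) A →ₗ[ℚ] MvPolynomial (Fin r) B where
  toFun f := ∑ a ∈ f.support, monomial a (φ (coeff a f))
  map_add' f g := by
    classical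
    ext a
    simp only [coeff_sum, coeff_add, coeff_monomial, sum_ite_eq', mem_support_iff]
    by_cases h1 : coeff a f = 0 <;> by_cases h2 : coeff a g = 0 <;>
      by_cases h3 : coeff a f + coeff a g = 0 <;>
      simp [h1, h2, h3, ← map_add]
  map_smul' q f := by
    classical
    ext a
    simp only [coeff_sum, coeff_smul, coeff_monomial, sum_ite_eq', mem_support_iff,
      RingHom.id_apply]
    by_cases h1 : coeff a f = 0
    · simp [h1]
    · by_cases h3 : q • coeff a f = 0
      · rw [if_neg (not_not.2 h3), if_pos h1, ← map_smul, h3, map_zero]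
      · rw [if_pos h3, if_pos h1, map_smul]

lemma coeff_cw {A B : Type*} [CommRing A] [CommRing B] [Algebra ℚ A] [Algebra ℚ B]
    (φ : A →ₗ[ℚ] B) (f : MvPolynomial (Fin r) A) (a : Fin r →₀ ℕ) :
    coeff a (cw φ f) = φ (coeff a f) := by
  classical
  change coeff a (∑ a ∈ f.support, monomial a (φ (coeff a f))) = _
  simp only [coeff_sum, coeff_monomial, sum_ite_eq', mem_support_iff]
  by_cases h1 : coeff a f = 0 <;> simp [h1]

/-- averaging over permutations -/
noncomputable def ave (r : ℕ) : MvPolynomial (Fin r) ℚ →ₗ[ℚ] Lam r ℚ where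
  toFun f := ⟨((r.factorial : ℚ)⁻¹) • ∑ σ : Equiv.Perm (Fin r), rename σ f, by
    rw [mem_symmetricSubalgebra]
    intro τ
    rw [map_smul, map_sum]
    congr 1
    rw [← Equiv.sum_comp (Equiv.mulLeft τ) (fun σ : Equiv.Perm (Fin r) => rename σ f)]
    refine sum_congr rfl fun σ _ => ?_
    rw [rename_rename]
    rfl⟩
  map_add' f g := by
    apply Subtype.ext
    simp [sum_add_distrib]
  map_smul' a f := by
    apply Subtype.ext
    simp only [map_smul, ← smul_sum, RingHom.id_apply]
    rw [SetLike.val_smul, smul_comm]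

lemma ave_coe (f : Lam r ℚ) : ave r (f : MvPolynomial (Fin r) ℚ) = f := by
  apply Subtype.ext
  have hf : IsSymmetric (f : MvPolynomial (Fin r) ℚ) := (mem_symmetricSubalgebra _).1 f.2
  change ((r.factorial : ℚ)⁻¹) • ∑ σ : Equiv.Perm (Fin r), rename σ (f : MvPolynomial (Fin r) ℚ) = _
  rw [sum_congr rfl fun σ _ => hf σ, sum_const, card_univ, Fintype.card_perm, Fintype.card_fin,
    ← Nat.cast_smul_eq_nsmul ℚ, smul_smul, inv_mul_cancel₀, one_smul]
  exact_mod_cast r.factorial_ne_zero

/-- the kernel `∏ (1 - z_i t_j) ^ n` as a polynomial in `z` with coefficients polynomials in `t` -/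
noncomputable def kp (r n : ℕ) : MvPolynomial (Fin r) (MvPolynomial (Fin r) ℚ) :=
  ∏ i : Fin r, ∏ j : Fin r, (1 - X i * C (X j)) ^ n

lemma kp_symm (r n : ℕ) : (kp r n).IsSymmetric := by
  intro σ
  rw [kp, map_prod, ← Equiv.prod_comp σ (fun i : Fin r => ∏ j : Fin r,
    (1 - (X i : MvPolynomial (Fin r) (MvPolynomial (Fin r) ℚ)) * C (X j)) ^ n)]
  refine prod_congr rfl fun i _ => ?_
  rw [map_prod]
  refine prod_congr rfl fun j _ => ?_
  rw [map_pow, map_sub, map_one, map_mul, rename_X, rename_C]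

lemma coeff_rename_perm {A : Type*} [CommRing A] (g : MvPolynomial (Fin r) A)
    (σ : Equiv.Perm (Fin r)) (a : Fin r →₀ ℕ) :
    coeff a (rename σ g) = coeff (a.mapDomain σ.symm) g := by
  have : a = (a.mapDomain σ.symm).mapDomain σ := by
    rw [← Finsupp.mapDomain_comp]
    simp
  conv_lhs => rw [this]
  rw [coeff_rename_mapDomain _ σ.injective]

lemma cw_symm {A B : Type*} [CommRing A] [CommRing B] [Algebra ℚ A] [Algebra ℚ B]
    (φ : A →ₗ[ℚ] B) (f : MvPolynomial (Fin r) A) (hf : f.IsSymmetric) :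
    (cw φ f).IsSymmetric := by
  intro σ
  ext a
  rw [coeff_rename_perm, coeff_cw, coeff_cw, ← coeff_rename_perm, hf σ]

/-- the kernel as an operator on functionals: `φ` is applied to the `t`-variables -/
noncomputable def KK (n : ℕ) (φ : Lam r ℚ →ₗ[ℚ] ℚ) : Lam r ℚ :=
  ⟨cw (φ ∘ₗ ave r) (kp r n), (mem_symmetricSubalgebra _).2 (cw_symm _ _ (kp_symm r n))⟩

end Kernel

section Combinatorics

/-- monotone functions `Fin r → ℕ` with sum `N`: partitions of `N` with at most `r` parts -/
def part (r N : ℕ) : Finset (Fin r → ℕ) :=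
  open Classical in
  (Fintype.piFinset fun _ : Fin r => range (N + 1)).filter fun l => Monotone l ∧ ∑ i, l i = N

/-- monotone functions `Fin r → ℕ` with values at most `M` -/
def box (r M : ℕ) : Finset (Fin r → ℕ) :=
  open Classical in
  (Fintype.piFinset fun _ : Fin r => range (M + 1)).filter fun l => Monotone l

/-- sum of the squares of the parts -/
def sq (l : Fin r → ℕ) : ℕ := ∑ i, l i ^ 2

/-- coefficient of a symmetric polynomial at `l` -/
noncomputable def cm (l : Fin r → ℕ) (f : Lam r R) : R := coeff (fs l) (f : MvPolynomial (Fin r) R)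

variable (R) in
/-- monomial symmetric polynomials -/
noncomputable def mm (l : Fin r → ℕ) : Lam r R :=
  open Classical in
  ⟨∑ a ∈ univ.image (fun σ : Equiv.Perm (Fin r) => fun i => l (σ i)), monomial (fs a) 1, by
    rw [mem_symmetricSubalgebra]
    intro σ
    rw [map_sum]
    refine sum_bij' (fun a _ => fun i => a (σ⁻¹ i)) (fun a _ => fun i => a (σ i)) ?_ ?_ ?_ ?_ ?_
    · intro a ha
      obtain ⟨τ, -, rfl⟩ := mem_image.1 ha
      exact mem_image.2 ⟨τ * σ⁻¹, mem_univ _, rfl⟩
    · intro a ha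
      obtain ⟨τ, -, rfl⟩ := mem_image.1 ha
      exact mem_image.2 ⟨τ * σ, mem_univ _, rfl⟩
    · intro a _
      funext i
      simp
    · intro a _
      funext i
      simp
    · intro a _
      rw [rename_monomial_fs]⟩

/-- eigenvalues of `D(u)` -/
def dl (c u : R) (l : Fin r → ℕ) : R := ∏ i : Fin r, ((l i : R) + u - c * ((i : ℕ) : R))

/-- `∏ (x + c (r - 1 - i) + j)` over the cells `(i, j)`, `j < l i` -/
def br (c x : R) (l : Fin r → ℕ) : R :=
  ∏ i : Fin r, ∏ j ∈ range (l i), (x + c * (((r - 1 - (i : ℕ) : ℕ)) : R) + (j : R))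

/-- the set `{l i + i}` -/
def bs (l : Fin r → ℕ) : Finset ℕ := univ.image fun i : Fin r => l i + (i : ℕ)

/-- number of elements of `B` strictly between `g` and `b` -/
def leg (B : Finset ℕ) (g b : ℕ) : ℕ := ((Ioo g b) ∩ B).card

/-- number of non-elements of `B` strictly between `g` and `b` -/
def arm (B : Finset ℕ) (g b : ℕ) : ℕ := ((Ioo g b) \ B).card

/-- numerator of `b_l` -/
def bn (c : R) (B : Finset ℕ) : R :=
  ∏ b ∈ B, ∏ g ∈ range b \ B, ((arm B g b : R) - c * ((leg B g b : R) + 1))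

/-- denominator of `b_l` -/
def bd (c : R) (B : Finset ℕ) : R :=
  ∏ b ∈ B, ∏ g ∈ range b \ B, ((arm B g b : R) + 1 - c * (leg B g b : R))

end Combinatorics

section Jack

/-- `P` is the Jack polynomial with leading term `m_l` for the parameter `c` -/
structure IsJack (c : ℚ) (l : Fin r → ℕ) (P : Lam r ℚ) : Prop where
  lead : cm l P = 1
  lower : ∀ k : Fin r → ℕ, Monotone k → cm k P ≠ 0 → k = l ∨ (∑ i, k i = ∑ i, l i ∧ sq k < sq l)
  eigen : ∀ u : ℚ, DD c u P = dl c u l • P

/-- the Jack polynomial (or `0` if there is none) -/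
noncomputable def jk (c : ℚ) (l : Fin r → ℕ) : Lam r ℚ :=
  open Classical in if h : ∃ P : Lam r ℚ, IsJack c l P then h.choose else 0

lemma isJack_jk {c : ℚ} {l : Fin r → ℕ} (h : ∃ P : Lam r ℚ, IsJack c l P) :
    IsJack c l (jk c l) := by
  classical
  rw [jk, dif_pos h]
  exact h.choose_spec

/-- the coefficient of `P_l ⊗ P_l` in the kernel -/
noncomputable def bb (c : ℚ) (l : Fin r → ℕ) : ℚ := bn c (bs l) / bd c (bs l)

end Jack

section Res

/-- the value of a symmetric polynomial at `z_0 = 0` -/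
noncomputable def res (r : ℕ) : Lam (r + 1) ℚ →ₗ[ℚ] Lam r ℚ where
  toFun f := ⟨aeval (Fin.cases 0 X : Fin (r + 1) → MvPolynomial (Fin r) ℚ)
      (f : MvPolynomial (Fin (r + 1)) ℚ), by
    rw [mem_symmetricSubalgebra]
    intro σ
    have hf : IsSymmetric (f : MvPolynomial (Fin (r + 1)) ℚ) := (mem_symmetricSubalgebra _).1 f.2
    have h1 : (rename σ).comp (aeval (Fin.cases 0 X : Fin (r + 1) → MvPolynomial (Fin r) ℚ)) =
        (aeval (Fin.cases 0 X : Fin (r + 1) → MvPolynomial (Fin r) ℚ)).comp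
          (rename (Equiv.Perm.decomposeFin.symm (0, σ))) := by
      ext i
      refine Fin.cases ?_ (fun j => ?_) i
      · simp
      · simp
    have h2 := DFunLike.congr_fun h1 (f : MvPolynomial (Fin (r + 1)) ℚ)
    simp only [AlgHom.comp_apply] at h2
    rw [h2, hf _]⟩
  map_add' f g := Subtype.ext (map_add _ _ _)
  map_smul' a f := Subtype.ext (map_smul _ _ _)

lemma coe_res (f : Lam (r + 1) ℚ) : (res r f : MvPolynomial (Fin r) ℚ) =
    aeval (Fin.cases 0 X : Fin (r + 1) → MvPolynomial (Fin r) ℚ)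
      (f : MvPolynomial (Fin (r + 1)) ℚ) := rfl

end Res

section Polynomial

/-- evaluation of the parameter -/
noncomputable def evP (c : ℚ) (f : Lam r (Polynomial ℚ)) : Lam r ℚ :=
  ⟨map (Polynomial.evalRingHom c) (f : MvPolynomial (Fin r) (Polynomial ℚ)), by
    rw [mem_symmetricSubalgebra]
    exact IsSymmetric.map ((mem_symmetricSubalgebra _).1 f.2) _⟩

/-- a family of symmetric polynomials depending polynomially on the parameter -/
def PF (f : ℚ → Lam r ℚ) : Prop := ∃ p : Lam r (Polynomial ℚ), ∀ c, f c = evP c p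

end Polynomial

/-- homogeneous of degree `N` -/
def Hg (N : ℕ) (f : Lam r R) : Prop := (f : MvPolynomial (Fin r) R).IsHomogeneous N

/-- degree at most `M` in each variable -/
def Bx (M : ℕ) (f : Lam r R) : Prop :=
  ∀ i, degreeOf i (f : MvPolynomial (Fin r) R) ≤ M

/-- the coefficient at `l` as a linear functional -/
noncomputable def cl (l : Fin r → ℕ) : Lam r R →ₗ[R] R where
  toFun f := cm l f
  map_add' f g := by simp [cm]
  map_smul' a f := by simp [cm]

@[simp] lemma cl_apply (l : Fin r → ℕ) (f : Lam r R) : cl l f = cm l f := rfl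

end Helper87.TR
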