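import Mathlib
import Pool.Agent.Helper87.TR.Defs

/-!
# Project TR: basic lemmas on symmetric polynomials and `D(u)`
-/

set_option autoImplicit false

open MvPolynomial Finset

namespace Helper87.TR

variable {r : ℕ} {R : Type*} [CommRing R]

lemma Lam.isSymmetric (f : Lam r R) : IsSymmetric (f : MvPolynomial (Fin r) R) :=
  (mem_symmetricSubalgebra _).1 f.2

lemma fs_injective : Function.Injective (fs : (Fin r → ℕ) → (Fin r →₀ ℕ)) :=
  Finsupp.equivFunOnFinite.symm.injective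

lemma mapDomain_fs (σ : Equiv.Perm (Fin r)) (k : Fin r → ℕ) :
    (fs k).mapDomain σ = fs fun i => k (σ⁻¹ i) := by
  ext i
  rw [Finsupp.mapDomain_equiv_apply]
  rfl

lemma cm_perm (f : Lam r R) (k : Fin r → ℕ) (σ : Equiv.Perm (Fin r)) :
    cm (fun i => k (σ i)) f = cm k f := by
  have h := coeff_rename_perm (f : MvPolynomial (Fin r) R) σ (fs k)
  rw [f.isSymmetric σ, mapDomain_fs] at h
  rw [cm, cm, h]
  rfl

lemma coe_mm (l : Fin r → ℕ) : (mm R l : MvPolynomial (Fin r) R) =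
    open Classical in ∑ a ∈ univ.image (fun σ : Equiv.Perm (Fin r) => fun i => l (σ i)),
      monomial (fs a) (1 : R) := rfl

lemma cm_mm' (k l : Fin r → ℕ) :
    cm k (mm R l) =
      open Classical in if ∃ σ : Equiv.Perm (Fin r), (fun i => l (σ i)) = k then 1 else 0 := by
  classical
  rw [cm, coe_mm, coeff_sum]
  simp_rw [coeff_monomial]
  have h : ∀ a : Fin r → ℕ, (fs a = fs k) ↔ a = k := fun a => fs_injective.eq_iff
  simp_rw [h]
  rw [sum_ite_eq']
  simp only [mem_image, mem_univ, true_and]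

lemma eq_of_perm_monotone {k l : Fin r → ℕ} (hk : Monotone k) (hl : Monotone l)
    (σ : Equiv.Perm (Fin r)) (h : (fun i => l (σ i)) = k) : k = l := by
  have h1 : k = l ∘ Tuple.sort l := by
    have : Monotone (l ∘ σ) := by
      have h2 : l ∘ σ = k := h
      rw [h2]; exact hk
    rw [← h]
    exact Tuple.unique_monotone this (Tuple.monotone_sort l)
  have h2 : l = l ∘ Tuple.sort l := by
    have : Monotone (l ∘ (1 : Equiv.Perm (Fin r))) := hl
    exact Tuple.unique_monotone this (Tuple.monotone_sort l)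
  rw [h1, ← h2]

lemma cm_mm {k l : Fin r → ℕ} (hk : Monotone k) (hl : Monotone l) :
    cm k (mm R l) = if k = l then 1 else 0 := by
  classical
  rw [cm_mm']
  by_cases h : k = l
  · rw [if_pos h, if_pos]
    exact ⟨1, by rw [h]; rfl⟩
  · rw [if_neg h, if_neg]
    rintro ⟨σ, hσ⟩
    exact h (eq_of_perm_monotone hk hl σ hσ)

lemma exists_monotone_perm (k : Fin r → ℕ) :
    ∃ σ : Equiv.Perm (Fin r), Monotone fun i => k (σ i) :=
  ⟨Tuple.sort k, Tuple.monotone_sort k⟩

lemma ext_cm {f g : Lam r R} (h : ∀ k : Fin r → ℕ, Monotone k → cm k f = cm k g) : f = g := by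
  apply Subtype.ext
  ext a
  obtain ⟨σ, hσ⟩ := exists_monotone_perm (fun i => a i)
  have h1 := h _ hσ
  rw [cm_perm f (fun i => a i) σ, cm_perm g (fun i => a i) σ] at h1
  rw [cm, cm, fs_coe] at h1
  exact h1

lemma cm_eq_zero_of_Hg {N : ℕ} {f : Lam r R} (hf : Hg N f) {k : Fin r → ℕ}
    (h : ∑ i, k i ≠ N) : cm k f = 0 := by
  by_contra h1
  have h2 := hf h1
  apply h
  rw [← h2, Finsupp.weight_apply, Finsupp.sum_fintype _ _ (fun i => by simp)]
  simp

lemma Hg_iff {N : ℕ} {f : Lam r R} :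
    Hg N f ↔ ∀ k : Fin r → ℕ, Monotone k → cm k f ≠ 0 → ∑ i, k i = N := by
  constructor
  · intro h k _ hk
    by_contra h1
    exact hk (cm_eq_zero_of_Hg h h1)
  · intro h a ha
    obtain ⟨σ, hσ⟩ := exists_monotone_perm (fun i => a i)
    have h1 : cm (fun i => a i) f ≠ 0 := by
      rw [cm, fs_coe]
      exact ha
    rw [← cm_perm f (fun i => a i) σ] at h1
    have h2 := h _ hσ h1
    rw [Equiv.sum_comp σ (fun i => a i)] at h2
    rw [← h2, Finsupp.weight_apply, Finsupp.sum_fintype _ _ (fun i => by simp)]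
    simp

lemma Bx_iff {M : ℕ} {f : Lam r R} :
    Bx M f ↔ ∀ k : Fin r → ℕ, Monotone k → cm k f ≠ 0 → ∀ i, k i ≤ M := by
  classical
  constructor
  · intro h k _ hk i
    have h1 : fs k ∈ (f : MvPolynomial (Fin r) R).support := mem_support_iff.2 hk
    exact (monomial_le_degreeOf i h1).trans (h i)
  · intro h i
    rw [degreeOf_eq_sup, Finset.sup_le_iff]
    intro a ha
    obtain ⟨σ, hσ⟩ := exists_monotone_perm (fun i => a i)
    have h1 : cm (fun i => a i) f ≠ 0 := by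
      rw [cm, fs_coe]
      exact mem_support_iff.1 ha
    rw [← cm_perm f (fun i => a i) σ] at h1
    have h2 := h _ hσ h1 (σ⁻¹ i)
    simpa using h2

lemma mem_part {N : ℕ} {l : Fin r → ℕ} : l ∈ part r N ↔ Monotone l ∧ ∑ i, l i = N := by
  classical
  rw [part, mem_filter, Fintype.mem_piFinset]
  constructor
  · exact fun h => h.2
  · intro h
    refine ⟨fun i => ?_, h⟩
    rw [mem_range, Nat.lt_succ_iff, ← h.2]
    exact single_le_sum (fun _ _ => Nat.zero_le _) (mem_univ i)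

lemma mem_box {M : ℕ} {l : Fin r → ℕ} : l ∈ box r M ↔ Monotone l ∧ ∀ i, l i ≤ M := by
  classical
  rw [box, mem_filter, Fintype.mem_piFinset]
  simp only [mem_range, Nat.lt_succ_iff]
  exact and_comm

lemma cm_smul (a : R) (f : Lam r R) (k : Fin r → ℕ) : cm k (a • f) = a * cm k f := by
  rw [← cl_apply, map_smul, smul_eq_mul, cl_apply]

lemma cm_add (f g : Lam r R) (k : Fin r → ℕ) : cm k (f + g) = cm k f + cm k g := by
  rw [← cl_apply, map_add, cl_apply, cl_apply]

lemma cm_sub (f g : Lam r R) (k : Fin r → ℕ) : cm k (f - g) = cm k f - cm k g := by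
  rw [← cl_apply, map_sub, cl_apply, cl_apply]

lemma cm_sum {ι : Type*} (s : Finset ι) (f : ι → Lam r R) (k : Fin r → ℕ) :
    cm k (∑ i ∈ s, f i) = ∑ i ∈ s, cm k (f i) := by
  rw [← cl_apply, map_sum]
  rfl

@[simp] lemma cm_zero (k : Fin r → ℕ) : cm k (0 : Lam r R) = 0 := by
  rw [← cl_apply, map_zero]

lemma eq_sum_of {s : Finset (Fin r → ℕ)} (hs : ∀ l ∈ s, Monotone l) {f : Lam r R}
    (hf : ∀ k : Fin r → ℕ, Monotone k → k ∉ s → cm k f = 0) :
    f = ∑ k ∈ s, cm k f • mm R k := by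
  classical
  apply ext_cm
  intro k hk
  rw [cm_sum]
  simp_rw [cm_smul]
  by_cases h : k ∈ s
  · rw [sum_eq_single_of_mem k h]
    · rw [cm_mm hk hk, if_pos rfl, mul_one]
    · intro l hl hlk
      rw [cm_mm hk (hs l hl), if_neg (Ne.symm hlk), mul_zero]
  · rw [hf k hk h]
    symm
    refine sum_eq_zero fun l hl => ?_
    rw [cm_mm hk (hs l hl), if_neg, mul_zero]
    rintro rfl
    exact h hl

lemma eq_sum_of_Hg {N : ℕ} {f : Lam r R} (hf : Hg N f) :
    f = ∑ k ∈ part r N, cm k f • mm R k := by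
  refine eq_sum_of (fun l hl => (mem_part.1 hl).1) fun k hk h => ?_
  exact cm_eq_zero_of_Hg hf fun h1 => h (mem_part.2 ⟨hk, h1⟩)

lemma eq_sum_of_Bx {M : ℕ} {f : Lam r R} (hf : Bx M f) :
    f = ∑ k ∈ box r M, cm k f • mm R k := by
  refine eq_sum_of (fun l hl => (mem_box.1 hl).1) fun k hk h => ?_
  by_contra h1
  exact h (mem_box.2 ⟨hk, Bx_iff.1 hf k hk h1⟩)

lemma Hg_mm (l : Fin r → ℕ) : Hg (∑ i, l i) (mm R l) := by
  classical
  rw [Hg_iff]
  intro k _ h
  rw [cm_mm'] at h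
  by_cases h1 : ∃ σ : Equiv.Perm (Fin r), (fun i => l (σ i)) = k
  · obtain ⟨σ, rfl⟩ := h1
    exact Equiv.sum_comp σ l
  · rw [if_neg h1] at h
    exact absurd rfl h

lemma Bx_mm {M : ℕ} {l : Fin r → ℕ} (hl : ∀ i, l i ≤ M) : Bx M (mm R l) := by
  classical
  rw [Bx_iff]
  intro k _ h
  rw [cm_mm'] at h
  by_cases h1 : ∃ σ : Equiv.Perm (Fin r), (fun i => l (σ i)) = k
  · obtain ⟨σ, rfl⟩ := h1
    exact fun i => hl _
  · rw [if_neg h1] at h
    exact absurd rfl h

lemma Hg_zero (N : ℕ) : Hg N (0 : Lam r R) := isHomogeneous_zero _ _ _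

lemma Hg_add {N : ℕ} {f g : Lam r R} (hf : Hg N f) (hg : Hg N g) : Hg N (f + g) :=
  IsHomogeneous.add hf hg

lemma Hg_smul {N : ℕ} {f : Lam r R} (a : R) (hf : Hg N f) : Hg N (a • f) := by
  rw [Hg_iff] at hf ⊢
  intro k hk h
  refine hf k hk fun h1 => h ?_
  rw [cm_smul, h1, mul_zero]

lemma Hg_sum {ι : Type*} {s : Finset ι} {N : ℕ} {f : ι → Lam r R} (h : ∀ i ∈ s, Hg N (f i)) :
    Hg N (∑ i ∈ s, f i) := by
  classical
  induction s using Finset.induction_on with
  | empty => exact Hg_zero N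
  | insert a s ha ih =>
    rw [sum_insert ha]
    exact Hg_add (h a (mem_insert_self _ _)) (ih fun i hi => h i (mem_insert_of_mem hi))

lemma Hg_mul {M N : ℕ} {f g : Lam r R} (hf : Hg M f) (hg : Hg N g) : Hg (M + N) (f * g) :=
  IsHomogeneous.mul hf hg

lemma Hg_one : Hg 0 (1 : Lam r R) := isHomogeneous_one _ _

lemma Hg_ee (k : ℕ) : Hg k (ee r R k) := by
  change IsHomogeneous (esymm (Fin r) R k) k
  rw [esymm]
  refine IsHomogeneous.sum _ _ _ fun S hS => ?_
  have h := IsHomogeneous.prod S (fun i : Fin r => (X i : MvPolynomial (Fin r) R)) (fun _ => 1)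
    fun i _ => isHomogeneous_X R i
  rw [sum_const, smul_eq_mul, mul_one, (mem_powersetCard.1 hS).2] at h
  exact h

lemma Bx_add {M : ℕ} {f g : Lam r R} (hf : Bx M f) (hg : Bx M g) : Bx M (f + g) := fun i =>
  (degreeOf_add_le i _ _).trans (max_le (hf i) (hg i))

lemma Bx_mul {M N : ℕ} {f g : Lam r R} (hf : Bx M f) (hg : Bx N g) : Bx (M + N) (f * g) := fun i =>
  (degreeOf_mul_le i _ _).trans (add_le_add (hf i) (hg i))

lemma Bx_mono {M N : ℕ} (h : M ≤ N) {f : Lam r R} (hf : Bx M f) : Bx N f := fun i =>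
  (hf i).trans h

lemma exists_Bx (f : Lam r R) : ∃ M, Bx M f :=
  ⟨∑ i, degreeOf i (f : MvPolynomial (Fin r) R), fun i =>
    single_le_sum (f := fun i => degreeOf i (f : MvPolynomial (Fin r) R))
      (fun _ _ => Nat.zero_le _) (mem_univ i)⟩

lemma cm_hom (f : Lam r R) (N : ℕ) : ∃ g : Lam r R, Hg N g ∧ ∀ k : Fin r → ℕ, Monotone k →
    ∑ i, k i = N → cm k g = cm k f := by
  refine ⟨∑ k ∈ part r N, cm k f • mm R k, ?_, ?_⟩
  · refine Hg_sum fun k hk => Hg_smul _ ?_
    rw [← (mem_part.1 hk).2]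
    exact Hg_mm k
  · intro k hk hN
    rw [cm_sum]
    simp_rw [cm_smul]
    rw [sum_eq_single_of_mem k (mem_part.2 ⟨hk, hN⟩)]
    · rw [cm_mm hk hk, if_pos rfl, mul_one]
    · intro l hl hlk
      rw [cm_mm hk (mem_part.1 hl).1, if_neg (Ne.symm hlk), mul_zero]

/-- homogeneous components -/
noncomputable def hc (N : ℕ) : Lam r R →ₗ[R] Lam r R :=
  ∑ k ∈ part r N, (cl k).smulRight (mm R k)

lemma hc_apply (N : ℕ) (f : Lam r R) : hc N f = ∑ k ∈ part r N, cm k f • mm R k := by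
  rw [hc, LinearMap.sum_apply]
  rfl

lemma Hg_hc (N : ℕ) (f : Lam r R) : Hg N (hc N f) := by
  rw [hc_apply]
  refine Hg_sum fun k hk => Hg_smul _ ?_
  rw [← (mem_part.1 hk).2]
  exact Hg_mm k

lemma cm_hc {N : ℕ} (f : Lam r R) {k : Fin r → ℕ} (hk : Monotone k) :
    cm k (hc N f) = if ∑ i, k i = N then cm k f else 0 := by
  by_cases h : ∑ i, k i = N
  · rw [if_pos h, hc_apply, cm_sum]
    simp_rw [cm_smul]
    rw [sum_eq_single_of_mem k (mem_part.2 ⟨hk, h⟩)]
    · rw [cm_mm hk hk, if_pos rfl, mul_one]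
    · intro l hl hlk
      rw [cm_mm hk (mem_part.1 hl).1, if_neg (Ne.symm hlk), mul_zero]
  · rw [if_neg h]
    exact cm_eq_zero_of_Hg (Hg_hc N f) h

lemma hc_of_Hg {N : ℕ} {f : Lam r R} (hf : Hg N f) : hc N f = f := by
  rw [hc_apply]
  exact (eq_sum_of_Hg hf).symm

lemma hc_of_Hg_ne {M N : ℕ} {f : Lam r R} (hf : Hg M f) (h : M ≠ N) : hc N f = 0 := by
  apply ext_cm
  intro k hk
  rw [cm_hc f hk, cm_zero]
  by_cases h1 : ∑ i, k i = N
  · rw [if_pos h1]
    exact cm_eq_zero_of_Hg hf fun h2 => h (h2.symm.trans h1)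
  · rw [if_neg h1]

lemma sum_hc {M : ℕ} {f : Lam r R} (hf : Bx M f) : f = ∑ N ∈ range (r * M + 1), hc N f := by
  apply ext_cm
  intro k hk
  rw [cm_sum]
  simp_rw [cm_hc f hk]
  rw [sum_ite_eq]
  by_cases h : ∑ i, k i ∈ range (r * M + 1)
  · rw [if_pos h]
  · rw [if_neg h]
    by_contra h1
    apply h
    rw [mem_range, Nat.lt_succ_iff]
    refine (sum_le_sum fun i _ => Bx_iff.1 hf k hk h1 i).trans ?_
    simp

/-! ### the operators `dd` and `DD` -/

section DD

variable [Algebra ℚ R] [IsDomain R]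

omit [Algebra ℚ R] [IsDomain R] in
lemma sum_cf (c u : R) (a : Fin r → ℕ) (τ : Equiv.Perm (Fin r)) :
    ∑ k ∈ range (r + 1), u ^ (r - k) * cf c k a τ =
      ∏ i : Fin r, ((a i : R) + u - c * ((τ i : ℕ) : R)) := by
  classical
  have h := Finset.prod_add (fun i : Fin r => (a i : R) - c * ((τ i : ℕ) : R)) (fun _ => u) univ
  have h1 : ∀ i : Fin r, (a i : R) + u - c * ((τ i : ℕ) : R) =
      ((a i : R) - c * ((τ i : ℕ) : R)) + u := fun i => by ring
  simp_rw [h1]
  rw [h, sum_powerset, card_univ, Fintype.card_fin]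
  refine sum_congr rfl fun k _ => ?_
  rw [cf, mul_sum]
  refine sum_congr rfl fun S hS => ?_
  rw [prod_const, card_sdiff_of_subset (subset_univ S), card_univ, Fintype.card_fin,
    (mem_powersetCard.1 hS).2, mul_comm]

omit [Algebra ℚ R] [IsDomain R] in
lemma dd_monomial (c u : R) (a : Fin r →₀ ℕ) (v : R) :
    dd c u (monomial a v) = ∑ τ : Equiv.Perm (Fin r), monomial (a + pe τ)
      (v * (((Equiv.Perm.sign τ : ℤ) : R) *
        ∏ i : Fin r, ((a i : R) + u - c * ((τ i : ℕ) : R)))) := by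
  rw [dd, LinearMap.sum_apply]
  simp_rw [LinearMap.smul_apply, dK_monomial, smul_sum, smul_monomial]
  rw [sum_comm]
  refine sum_congr rfl fun τ _ => ?_
  rw [← map_sum, ← sum_cf]
  congr 1
  rw [mul_sum, mul_sum]
  refine sum_congr rfl fun k _ => ?_
  rw [smul_eq_mul]
  ring

lemma DD_apply (c u : R) (f : Lam r R) : DD c u f = ∑ k ∈ range (r + 1), u ^ (r - k) • DK c k f := by
  rw [DD, LinearMap.sum_apply]
  rfl

lemma vd_mul_DD (c u : R) (f : Lam r R) :
    vd r R * (DD c u f : MvPolynomial (Fin r) R) = dd c u f := by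
  rw [DD_apply, dd, LinearMap.sum_apply]
  push_cast
  rw [mul_sum]
  refine sum_congr rfl fun k _ => ?_
  rw [LinearMap.smul_apply, ← vd_mul_DK, mul_smul_comm]

end DD

end Helper87.TR
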