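import Mathlib
import Pool.Agent.Helper87.TR.Defs

/-!
# Project TR: definitions for the second half

* `ww a μ k`: the coefficients of `(∑ X_i T^i)^μ`;
* `pb m n k`: the number of partitions of `k` with at most `m` parts, all at most `n`;
* the multiplicity of the Specht module of `(N - k, k)` in the permutation module of `Sym(N)` on the set
  partitions of `{0, ..., N - 1}` into `m` blocks of size `n`.
-/

set_option autoImplicit false

open Finset

namespace Helper87.TR

/-- the coefficient of `T ^ k` in `(∑ X_i T^i) ^ μ` -/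
noncomputable def ww (a μ k : ℕ) : MvPolynomial (Fin (a + 1)) ℚ :=
  ((∑ i : Fin (a + 1), Polynomial.C (MvPolynomial.X i) * Polynomial.X ^ (i : ℕ) :
    Polynomial (MvPolynomial (Fin (a + 1)) ℚ)) ^ μ).coeff k

/-- number of partitions of `k` in an `m × n` box: monotone functions `Fin m → {0, ..., n}` with sum `k` -/
def pb (m n k : ℕ) : ℕ := ((box m n).filter fun l => ∑ i, l i = k).card

/-- homogeneous polynomials of degree `m` and weight `k` in `X_0, ..., X_d` (`X_i` has weight `i`) -/
def Vw (d m k : ℕ) : Submodule ℚ (MvPolynomial (Fin (d + 1)) ℚ) where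
  carrier := {f | ∀ a : Fin (d + 1) →₀ ℕ, MvPolynomial.coeff a f ≠ 0 →
    ∑ i, a i = m ∧ ∑ i : Fin (d + 1), (i : ℕ) * a i = k}
  zero_mem' := fun a h => absurd (MvPolynomial.coeff_zero a) h
  add_mem' := by
    intro f g hf hg a h
    by_cases h1 : MvPolynomial.coeff a f = 0
    · refine hg a fun h2 => h ?_
      rw [MvPolynomial.coeff_add, h1, h2, add_zero]
    · exact hf a h1
  smul_mem' := by
    intro c f hf a h
    refine hf a fun h1 => h ?_
    rw [MvPolynomial.coeff_smul, h1, smul_zero]

/-- the derivation `X_i ↦ (i + 1) X_{i+1}`, `X_d ↦ 0` -/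
noncomputable def dl1 (d : ℕ) : Derivation ℚ (MvPolynomial (Fin (d + 1)) ℚ) (MvPolynomial (Fin (d + 1)) ℚ) :=
  MvPolynomial.mkDerivation ℚ fun i : Fin (d + 1) =>
    if h : (i : ℕ) + 1 < d + 1 then (((i : ℕ) + 1 : ℕ) : ℚ) • MvPolynomial.X ⟨(i : ℕ) + 1, h⟩ else 0

/-- `k`-element subsets of `{0, ..., N - 1}` -/
abbrev Sub (N k : ℕ) : Type := {s : Finset (Fin N) // s.card = k}

/-- set partitions of `{0, ..., N - 1}` into `m` blocks of size `n` -/
abbrev SetPart (N m n : ℕ) : Type :=
  {P : Finset (Finset (Fin N)) // P.card = m ∧ (∀ B ∈ P, B.card = n) ∧ ∀ x : Fin N, ∃! B, B ∈ P ∧ x ∈ B}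

instance (N k : ℕ) : MulAction (Equiv.Perm (Fin N)) (Sub N k) where
  smul g s := ⟨s.1.map g.toEmbedding, by rw [card_map, s.2]⟩
  one_smul s := Subtype.ext (by
    change s.1.map (Equiv.toEmbedding 1) = s.1
    ext x
    simp only [mem_map_equiv]
    rfl)
  mul_smul g h s := Subtype.ext (by
    change s.1.map (Equiv.toEmbedding (g * h)) = (s.1.map h.toEmbedding).map g.toEmbedding
    ext x
    simp only [mem_map_equiv]
    rfl)

lemma Sub.smul_coe {N k : ℕ} (g : Equiv.Perm (Fin N)) (s : Sub N k) :
    ((g • s : Sub N k) : Finset (Fin N)) = s.1.map g.toEmbedding := rfl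

/-- the image of a set of subsets under a permutation -/
def imP {N : ℕ} (g : Equiv.Perm (Fin N)) (P : Finset (Finset (Fin N))) : Finset (Finset (Fin N)) :=
  P.map (Finset.mapEmbedding g.toEmbedding).toEmbedding

lemma mem_imP {N : ℕ} (g : Equiv.Perm (Fin N)) (P : Finset (Finset (Fin N))) (B : Finset (Fin N)) :
    B ∈ imP g P ↔ B.map g.symm.toEmbedding ∈ P := by
  rw [imP, mem_map]
  constructor
  · rintro ⟨C, hC, rfl⟩
    have : ((Finset.mapEmbedding g.toEmbedding).toEmbedding C).map g.symm.toEmbedding = C := by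
      ext x
      simp [Finset.mapEmbedding]
    rw [this]
    exact hC
  · intro h
    refine ⟨_, h, ?_⟩
    ext x
    simp [Finset.mapEmbedding]

instance (N m n : ℕ) : MulAction (Equiv.Perm (Fin N)) (SetPart N m n) where
  smul g P := ⟨imP g P.1, by
    refine ⟨by rw [imP, card_map, P.2.1], ?_, ?_⟩
    · intro B hB
      rw [mem_imP] at hB
      have := P.2.2.1 _ hB
      rwa [card_map] at this
    · intro x
      obtain ⟨B, ⟨hB, hx⟩, hu⟩ := P.2.2.2 (g.symm x)
      refine ⟨B.map g.toEmbedding, ⟨?_, ?_⟩, ?_⟩
      · rw [mem_imP]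
        have : (B.map g.toEmbedding).map g.symm.toEmbedding = B := by
          ext y
          simp
        rw [this]
        exact hB
      · rw [mem_map]
        exact ⟨_, hx, by simp⟩
      · rintro C ⟨hC, hxC⟩
        rw [mem_imP] at hC
        have h1 := hu _ ⟨hC, by rw [mem_map]; exact ⟨x, hxC, rfl⟩⟩
        rw [← h1]
        ext y
        simp⟩
  one_smul P := Subtype.ext (by
    change imP 1 P.1 = P.1
    ext B
    rw [mem_imP]
    have : B.map (Equiv.toEmbedding (Equiv.symm (1 : Equiv.Perm (Fin N)))) = B := by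
      ext y
      simp only [mem_map_equiv]
      rfl
    rw [this])
  mul_smul g h P := Subtype.ext (by
    change imP (g * h) P.1 = imP g (imP h P.1)
    ext B
    rw [mem_imP, mem_imP, mem_imP]
    have : B.map (Equiv.toEmbedding (Equiv.symm (g * h))) =
        (B.map g.symm.toEmbedding).map h.symm.toEmbedding := by
      ext y
      simp only [mem_map_equiv]
      rfl
    rw [this])

lemma SetPart.smul_coe {N m n : ℕ} (g : Equiv.Perm (Fin N)) (P : SetPart N m n) :
    ((g • P : SetPart N m n) : Finset (Finset (Fin N))) = imP g P.1 := rfl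

/-- the action of a group on functions, `(g f)(x) = f(g⁻¹ x)` -/
def act {G X : Type*} [Group G] [MulAction G X] (g : G) (f : X → ℂ) : X → ℂ := fun x => f (g⁻¹ • x)

/-- `G`-equivariant linear maps from a space of functions on `X` to the functions on `Y` -/
def HomG (G : Type*) {X : Type*} (Y : Type*) [Group G] [MulAction G X] [MulAction G Y]
    (S : Submodule ℂ (X → ℂ)) : Submodule ℂ (S →ₗ[ℂ] (Y → ℂ)) where
  carrier := {T | ∀ (g : G) (f f' : S), (f' : X → ℂ) = act g (f : X → ℂ) → T f' = act g (T f)}
  zero_mem' := by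
    intro g f f' _
    rfl
  add_mem' := by
    intro T T' hT hT' g f f' h
    rw [LinearMap.add_apply, hT g f f' h, hT' g f f' h]
    rfl
  smul_mem' := by
    intro c T hT g f f' h
    rw [LinearMap.smul_apply, hT g f f' h]
    rfl

/-- the Specht module of the partition `(N - k, k)` (`2 k ≤ N`): the functions on the `k`-element subsets
of `{0, ..., N - 1}` whose sum over the sets containing `t` is zero, for every set `t` of size `k - 1` -/
def Sp (N k : ℕ) : Submodule ℂ (Sub N k → ℂ) where
  carrier := {f | ∀ t : Finset (Fin N), t.card + 1 = k → ∑ s : Sub N k, (if t ⊆ s.1 then f s else 0) = 0}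
  zero_mem' := by
    intro t _
    simp
  add_mem' := by
    intro f g hf hg t ht
    have h := congrArg₂ (· + ·) (hf t ht) (hg t ht)
    simp only [add_zero] at h
    rw [← sum_add_distrib] at h
    refine (sum_congr rfl fun s _ => ?_).trans h
    by_cases h1 : t ⊆ s.1
    · simp only [if_pos h1]
      rfl
    · simp only [if_neg h1, add_zero]
  smul_mem' := by
    intro c f hf t ht
    have h := congrArg (c * ·) (hf t ht)
    simp only [mul_zero] at h
    rw [mul_sum] at h
    refine (sum_congr rfl fun s _ => ?_).trans h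
    by_cases h1 : t ⊆ s.1
    · simp only [if_pos h1]
      rfl
    · simp only [if_neg h1, mul_zero]

/-- the multiplicity of the Specht module of `(N - k, k)` in the permutation module of the symmetric
group `Sym(N)` on the set partitions of `{0, ..., N - 1}` into `m` blocks of size `n`: the dimension of
the space of equivariant linear maps -/
noncomputable def mult (N k m n : ℕ) : ℕ :=
  Module.finrank ℂ (HomG (Equiv.Perm (Fin N)) (SetPart N m n) (Sp N k))

end Helper87.TR
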