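import Mathlib
import Pool.Agent.Helper87.TR.St.T29
import Pool.Agent.Helper87.TR.St.T30
import Pool.Agent.Helper87.TR.St.T30b
import Pool.Agent.Helper87.TR.St.T31
import Pool.Agent.Helper87.TR.St.T32

/-!
# Project TR: the two-row case, final assembly
-/

set_option autoImplicit false

open Finset

namespace Helper87.TR

theorem mult_zero (m n : ℕ) (hn : 1 ≤ n) : mult (m * n) 0 m n = pb m n 0 := by
  rw [mult, Sp_zero, finrank_Hom_top, card_orbits m n 0 hn]

theorem mult_succ (m n k : ℕ) (hn : 1 ≤ n) (hk : 2 * k + 1 ≤ m * n) :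
    mult (m * n) (k + 1) m n + pb m n k = pb m n (k + 1) := by
  have h := finrank_Hom_ker (Equiv.Perm (Fin (m * n))) (Sub (m * n) (k + 1)) (Sub (m * n) k)
    (SetPart (m * n) m n) (downMap (m * n) k) (downMap_surj _ _ hk) (downMap_act _ _)
  rw [finrank_Hom_top, finrank_Hom_top, card_orbits m n k hn, card_orbits m n (k + 1) hn,
    ker_downMap] at h
  exact h

theorem pb_zero (m n : ℕ) : pb m n 0 = 1 := by
  rw [pb, card_eq_one]
  refine ⟨fun _ => 0, ?_⟩
  ext l
  rw [mem_filter, mem_singleton, mem_box]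
  constructor
  · rintro ⟨-, h⟩
    funext i
    exact (sum_eq_zero_iff.1 h) i (mem_univ i)
  · rintro rfl
    exact ⟨⟨fun _ _ _ => le_rfl, fun _ => Nat.zero_le _⟩, by simp⟩

theorem main (m n p q k : ℕ) (hm : 1 ≤ m) (h : m * n = p * q) (hp : m ≤ p) (hq : m ≤ q)
    (hd : m ∣ p ∨ m ∣ q) (hk : 2 * k ≤ m * n) :
    mult (m * n) k m n ≤ mult (p * q) k p q := by
  have hpq : 1 ≤ p * q := Nat.mul_pos (by omega) (by omega)
  have hn : 1 ≤ n := by
    rcases Nat.eq_zero_or_pos n with h0 | h0
    · rw [h0, Nat.mul_zero] at h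
      omega
    · exact h0
  have hq1 : 1 ≤ q := hm.trans hq
  rcases Nat.eq_zero_or_pos k with h0 | h0
  · subst h0
    rw [mult_zero m n hn, mult_zero p q hq1, pb_zero, pb_zero]
  · obtain ⟨j, rfl⟩ : ∃ j, k = j + 1 := ⟨k - 1, by omega⟩
    have h1 := mult_succ m n j hn (by omega)
    have h2 := mult_succ p q j hq1 (by omega)
    have h3 := pb_main m n p q j hm h hp hq hd hk
    omega

/-- for two rows the numbers of blocks and the size of the blocks can be exchanged (Hermite reciprocity) -/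
theorem mult_swap (m n k : ℕ) (hm : 1 ≤ m) (hn : 1 ≤ n) (hk : 2 * k ≤ m * n) :
    mult (m * n) k n m = mult (m * n) k m n := by
  have hc : n * m = m * n := Nat.mul_comm n m
  rcases Nat.eq_zero_or_pos k with h0 | h0
  · subst h0
    have h1 := mult_zero n m hm
    rw [hc] at h1
    rw [mult_zero m n hn, h1, pb_zero, pb_zero]
  · obtain ⟨j, rfl⟩ : ∃ j, k = j + 1 := ⟨k - 1, by omega⟩
    have h1 := mult_succ m n j hn (by omega)
    have h2 := mult_succ n m j hm (by omega)
    rw [hc] at h2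
    have h3 := pb_comm m n j
    have h4 := pb_comm m n (j + 1)
    omega

/-- both readings of the convention -/
theorem main_both (m n p q k : ℕ) (hm : 1 ≤ m) (h : m * n = p * q) (hp : m ≤ p) (hq : m ≤ q)
    (hd : m ∣ p ∨ m ∣ q) (hk : 2 * k ≤ m * n) :
    mult (m * n) k n m ≤ mult (p * q) k q p ∧ mult (m * n) k m n ≤ mult (p * q) k p q := by
  have hpq : 1 ≤ p * q := Nat.mul_pos (by omega) (by omega)
  have hn : 1 ≤ n := by
    rcases Nat.eq_zero_or_pos n with h0 | h0
    · rw [h0, Nat.mul_zero] at h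
      omega
    · exact h0
  have h1 := main m n p q k hm h hp hq hd hk
  refine ⟨?_, h1⟩
  rw [mult_swap m n k hm hn hk, mult_swap p q k (hm.trans hp) (hm.trans hq) (h ▸ hk)]
  exact h1

end Helper87.TR
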