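import Mathlib
import Pool.Agent.Helper87.TR.Final

/-!
# Project TR: a short form of the multiplicity

The multiplicity of the Specht module of `(N - k, k)` in the permutation module on set partitions as the
dimension of the space of equivariant maps from the set partitions to the Specht module.
-/

set_option autoImplicit false

open Finset

namespace Helper87.TR

/-- the Specht module of `(N - k, k)`: functions on the `k`-element subsets of `{0, ..., N - 1}` whose sum
over the sets containing `t` is zero for every set `t` of size `k - 1` -/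
def Specht (N k : ℕ) : Set (Sub N k → ℂ) :=
  {f | ∀ t : Finset (Fin N), t.card + 1 = k → ∑ s : Sub N k, (if t ⊆ s.1 then f s else 0) = 0}

/-- equivariant maps `P ↦ K P` from the set partitions of `{0, ..., N - 1}` into `m` blocks of size `n` to
the Specht module -/
def EqMaps (N k m n : ℕ) : Set (SetPart N m n → Sub N k → ℂ) :=
  {K | (∀ P, K P ∈ Specht N k) ∧
    ∀ (g : Equiv.Perm (Fin N)) (P P' : SetPart N m n) (s s' : Sub N k),
      P'.1 = P.1.image (Finset.image g) → s'.1 = s.1.image g → K P' s' = K P s}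

/-- the multiplicity: the dimension of the space of equivariant maps -/
noncomputable def specMult (N k m n : ℕ) : ℕ := Set.finrank ℂ (EqMaps N k m n)

section Dual

variable {G X Y : Type*} [Group G] [Fintype X] [MulAction G X] [MulAction G Y]

/-- the bilinear form -/
noncomputable def st_B (S : Submodule ℂ (X → ℂ)) : S →ₗ[ℂ] Module.Dual ℂ S where
  toFun f :=
    { toFun := fun h => ∑ x, (f : X → ℂ) x * (h : X → ℂ) x
      map_add' := fun h h' => by
        simp only [Submodule.coe_add, Pi.add_apply, mul_add, sum_add_distrib]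
      map_smul' := fun c h => by
        simp only [Submodule.coe_smul, Pi.smul_apply, smul_eq_mul, RingHom.id_apply, mul_sum]
        refine sum_congr rfl fun x _ => ?_
        ring }
  map_add' f f' := by
    ext h
    simp only [LinearMap.coe_mk, AddHom.coe_mk, LinearMap.add_apply, Submodule.coe_add,
      Pi.add_apply, add_mul, sum_add_distrib]
  map_smul' c f := by
    ext h
    simp only [LinearMap.coe_mk, AddHom.coe_mk, LinearMap.smul_apply, Submodule.coe_smul,
      Pi.smul_apply, smul_eq_mul, RingHom.id_apply, mul_sum]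
    refine sum_congr rfl fun x _ => ?_
    ring

lemma st_B_apply (S : Submodule ℂ (X → ℂ)) (f h : S) :
    st_B S f h = ∑ x, (f : X → ℂ) x * (h : X → ℂ) x := rfl

lemma st_B_inj (S : Submodule ℂ (X → ℂ)) (hc : ∀ f ∈ S, (fun x => star (f x)) ∈ S) :
    Function.Injective (st_B S) := by
  rw [← LinearMap.ker_eq_bot, LinearMap.ker_eq_bot']
  intro f hf
  have h1 := congrArg (fun L : Module.Dual ℂ S => L ⟨_, hc f.1 f.2⟩) hf
  simp only [st_B_apply, LinearMap.zero_apply] at h1
  have h2 : ∑ x, ‖(f : X → ℂ) x‖ ^ 2 = 0 := by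
    have h3 : ((∑ x, ‖(f : X → ℂ) x‖ ^ 2 : ℝ) : ℂ) = 0 := by
      rw [← h1]
      push_cast
      refine sum_congr rfl fun x _ => ?_
      exact (RCLike.mul_conj ((f : X → ℂ) x)).symm
    exact_mod_cast h3
  apply Subtype.ext
  funext x
  have h4 := (sum_eq_zero_iff_of_nonneg (fun x _ => sq_nonneg _)).1 h2 x (mem_univ x)
  have h5 : ‖(f : X → ℂ) x‖ = 0 := by
    exact pow_eq_zero_iff (two_ne_zero) |>.1 h4
  exact norm_eq_zero.1 h5

lemma st_B_surj (S : Submodule ℂ (X → ℂ)) (hc : ∀ f ∈ S, (fun x => star (f x)) ∈ S) :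
    Function.Surjective (st_B S) := by
  have h : Module.finrank ℂ S = Module.finrank ℂ (Module.Dual ℂ S) :=
    (Subspace.dual_finrank_eq (K := ℂ) (V := S)).symm
  exact (LinearMap.injective_iff_surjective_of_finrank_eq_finrank h).1 (st_B_inj S hc)

theorem st_finrank (S : Submodule ℂ (X → ℂ)) (hS : ∀ (g : G) (f : X → ℂ), f ∈ S → act g f ∈ S)
    (hc : ∀ f ∈ S, (fun x => star (f x)) ∈ S) (W : Submodule ℂ (Y → X → ℂ))
    (hW : ∀ K : Y → X → ℂ, K ∈ W ↔ (∀ y, K y ∈ S) ∧ ∀ (g : G) y x, K (g • y) (g • x) = K y x) :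
    Module.finrank ℂ W = Module.finrank ℂ (HomG G Y S) := by
  classical
  let T : W → (S →ₗ[ℂ] (Y → ℂ)) := fun K =>
    { toFun := fun f y => ∑ x, (K : Y → X → ℂ) y x * (f : X → ℂ) x
      map_add' := fun f f' => by
        funext y
        simp only [Submodule.coe_add, Pi.add_apply, mul_add, sum_add_distrib]
      map_smul' := fun c f => by
        funext y
        simp only [Submodule.coe_smul, Pi.smul_apply, smul_eq_mul, RingHom.id_apply, mul_sum]
        refine sum_congr rfl fun x _ => ?_
        ring }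
  have hT : ∀ K f y, T K f y = ∑ x, (K : Y → X → ℂ) y x * (f : X → ℂ) x := fun K f y => rfl
  let Φ : W →ₗ[ℂ] HomG G Y S :=
    { toFun := fun K => ⟨T K, by
        intro g f f' hff
        funext y
        rw [act, hT, hT, hff,
          ← Equiv.sum_comp (MulAction.toPerm g : Equiv.Perm X)
            (fun x => (K : Y → X → ℂ) y x * act g (f : X → ℂ) x)]
        refine sum_congr rfl fun x _ => ?_
        rw [act, MulAction.toPerm_apply, inv_smul_smul]
        congr 1
        have := ((hW K.1).1 K.2).2 g (g⁻¹ • y) x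
        rw [smul_inv_smul] at this
        exact this⟩
      map_add' := fun K K' => by
        apply Subtype.ext
        ext f y
        simp only [Submodule.coe_add, LinearMap.add_apply, Pi.add_apply, hT, add_mul,
          sum_add_distrib]
      map_smul' := fun c K => by
        apply Subtype.ext
        ext f y
        simp only [Submodule.coe_smul, LinearMap.smul_apply, Pi.smul_apply, hT, smul_eq_mul,
          RingHom.id_apply, mul_sum, mul_assoc] }
  have hΦ : ∀ K f y, (Φ K).1 f y = ∑ x, (K : Y → X → ℂ) y x * (f : X → ℂ) x := fun K f y => rfl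
  refine LinearEquiv.finrank_eq (LinearEquiv.ofBijective Φ ⟨?_, ?_⟩)
  · intro K K' hK
    apply Subtype.ext
    funext y
    have hKy : (K : Y → X → ℂ) y ∈ S := ((hW K.1).1 K.2).1 y
    have hKy' : (K' : Y → X → ℂ) y ∈ S := ((hW K'.1).1 K'.2).1 y
    have h1 : st_B S ⟨(K : Y → X → ℂ) y, hKy⟩ = st_B S ⟨(K' : Y → X → ℂ) y, hKy'⟩ := by
      apply LinearMap.ext
      intro f
      have h2 := hΦ K f y
      rw [hK, hΦ K' f y] at h2
      rw [st_B_apply, st_B_apply]
      exact h2.symm
    have h3 := st_B_inj S hc h1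
    exact congrArg Subtype.val h3
  · intro L
    have hex : ∀ y, ∃ κ : S, st_B S κ = (LinearMap.proj y).comp L.1 := fun y =>
      st_B_surj S hc _
    choose κ hκ using hex
    have hκ' : ∀ y (f : S), ∑ x, (κ y : X → ℂ) x * (f : X → ℂ) x = L.1 f y := by
      intro y f
      have := congrArg (fun M : Module.Dual ℂ S => M f) (hκ y)
      exact this
    have hmem : (fun y => (κ y : X → ℂ)) ∈ W := by
      rw [hW]
      refine ⟨fun y => (κ y).2, ?_⟩
      intro g y x
      have h1 : st_B S ⟨act g⁻¹ (κ (g • y) : X → ℂ), hS _ _ (κ (g • y)).2⟩ = st_B S (κ y) := by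
        apply LinearMap.ext
        intro f
        rw [st_B_apply, st_B_apply, hκ']
        have h2 := hκ' (g • y) ⟨act g (f : X → ℂ), hS _ _ f.2⟩
        have h3 := L.2 g f ⟨act g (f : X → ℂ), hS _ _ f.2⟩ rfl
        rw [h3] at h2
        have h4 : act g (L.1 f) (g • y) = L.1 f y := by
          rw [act, inv_smul_smul]
        rw [h4] at h2
        rw [← h2, ← Equiv.sum_comp (MulAction.toPerm g : Equiv.Perm X)
            (fun x => (κ (g • y) : X → ℂ) x * act g (f : X → ℂ) x)]
        refine sum_congr rfl fun x _ => ?_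
        simp only [act, MulAction.toPerm_apply, inv_smul_smul, inv_inv]
      have h5 := congrFun (congrArg Subtype.val (st_B_inj S hc h1)) x
      have h6 : act g⁻¹ (κ (g • y) : X → ℂ) x = (κ y : X → ℂ) x := h5
      rw [act, inv_inv] at h6
      exact h6
    refine ⟨⟨_, hmem⟩, ?_⟩
    apply Subtype.ext
    ext f y
    rw [hΦ]
    exact hκ' y f

end Dual

lemma st_act_mem (N k : ℕ) (g : Equiv.Perm (Fin N)) (f : Sub N k → ℂ) (hf : f ∈ Sp N k) :
    act g f ∈ Sp N k := by
  rcases Nat.eq_zero_or_pos k with h0 | h0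
  · subst h0
    rw [Sp_zero]
    trivial
  · obtain ⟨j, rfl⟩ : ∃ j, k = j + 1 := ⟨k - 1, by omega⟩
    rw [← ker_downMap, LinearMap.mem_ker] at hf ⊢
    rw [downMap_act, hf]
    rfl

lemma st_star_mem (N k : ℕ) (f : Sub N k → ℂ) (hf : f ∈ Sp N k) :
    (fun x => star (f x)) ∈ Sp N k := by
  intro t ht
  have h := congrArg star (hf t ht)
  rw [star_sum, star_zero] at h
  refine Eq.trans (sum_congr rfl fun s _ => ?_) h
  split_ifs
  · rfl
  · rw [star_zero]

lemma st_imP {N : ℕ} (g : Equiv.Perm (Fin N)) (P : Finset (Finset (Fin N))) :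
    imP g P = P.image (Finset.image g) := by
  ext B
  rw [mem_imP, mem_image]
  constructor
  · intro h
    refine ⟨_, h, ?_⟩
    ext x
    rw [mem_image]
    constructor
    · rintro ⟨a, ha, rfl⟩
      simpa using ha
    · intro hx
      exact ⟨g.symm x, by simpa using hx, by simp⟩
  · rintro ⟨C, hC, rfl⟩
    have : (Finset.image g C).map g.symm.toEmbedding = C := by
      ext x
      simp
    rw [this]
    exact hC

lemma st_map {N : ℕ} (g : Equiv.Perm (Fin N)) (s : Finset (Fin N)) :
    s.map g.toEmbedding = s.image g := by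
  rw [map_eq_image]
  rfl

theorem specMult_eq (N k m n : ℕ) : specMult N k m n = mult N k m n := by
  classical
  have hmem : ∀ K : SetPart N m n → Sub N k → ℂ, K ∈ EqMaps N k m n ↔ (∀ P, K P ∈ Sp N k) ∧
      ∀ (g : Equiv.Perm (Fin N)) (P : SetPart N m n) (s : Sub N k), K (g • P) (g • s) = K P s := by
    intro K
    constructor
    · rintro ⟨h1, h2⟩
      refine ⟨h1, fun g P s => h2 g P (g • P) s (g • s) ?_ ?_⟩
      · rw [SetPart.smul_coe, st_imP]
      · rw [Sub.smul_coe, st_map]
    · rintro ⟨h1, h2⟩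
      refine ⟨h1, fun g P P' s s' hP hs => ?_⟩
      have e1 : P' = g • P := Subtype.ext (by rw [hP, SetPart.smul_coe, st_imP])
      have e2 : s' = g • s := Subtype.ext (by rw [hs, Sub.smul_coe, st_map])
      rw [e1, e2, h2]
  let W : Submodule ℂ (SetPart N m n → Sub N k → ℂ) :=
    { carrier := EqMaps N k m n
      zero_mem' := by
        rw [hmem]
        exact ⟨fun P => (Sp N k).zero_mem, fun g P s => rfl⟩
      add_mem' := by
        intro K K' hK hK'
        rw [hmem] at hK hK' ⊢
        refine ⟨fun P => (Sp N k).add_mem (hK.1 P) (hK'.1 P), fun g P s => ?_⟩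
        rw [Pi.add_apply, Pi.add_apply, Pi.add_apply, Pi.add_apply, hK.2, hK'.2]
      smul_mem' := by
        intro c K hK
        rw [hmem] at hK ⊢
        refine ⟨fun P => (Sp N k).smul_mem c (hK.1 P), fun g P s => ?_⟩
        rw [Pi.smul_apply, Pi.smul_apply, Pi.smul_apply, Pi.smul_apply, hK.2] }
  have hW : EqMaps N k m n = (W : Set (SetPart N m n → Sub N k → ℂ)) := rfl
  rw [specMult, Set.finrank, hW, Submodule.span_eq, mult]
  exact st_finrank (Sp N k) (st_act_mem N k) (st_star_mem N k) W fun K => hmem K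

theorem final (m n p q k : ℕ) (hm : 1 ≤ m) (h : m * n = p * q) (hp : m ≤ p) (hq : m ≤ q)
    (hd : m ∣ p ∨ m ∣ q) (hk : 2 * k ≤ m * n) :
    specMult (m * n) k n m ≤ specMult (p * q) k q p ∧ specMult (m * n) k m n ≤ specMult (p * q) k p q := by
  simp only [specMult_eq]
  exact main_both m n p q k hm h hp hq hd hk

end Helper87.TR
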