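import Mathlib
import Pool.Agent.Helper87.TR.Stmt

/-!
# Project TR: chains of divisors

The comparison of `m` blocks of size `n` with `p` blocks of size `q` is transitive; this gives all `p, q` with
`m ^ 2 ≤ 2 min(p, q)`.
-/

set_option autoImplicit false

namespace Helper87.TR

/-- One step between divisors of `N`: `a ≤ b ≤ √N`, `b` divides `N`, and `a` divides `b` or `N / b`. -/
def Link (N a b : ℕ) : Prop := a ≤ b ∧ b * b ≤ N ∧ b ∣ N ∧ (a ∣ b ∨ a ∣ N / b)

theorem link_mult (N k a b : ℕ) (ha : 1 ≤ a) (haN : a ∣ N) (hk : 2 * k ≤ N) (h : Link N a b) :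
    mult N k a (N / a) ≤ mult N k b (N / b) := by
  obtain ⟨h1, h2, h3, h4⟩ := h
  have hb : 1 ≤ b := ha.trans h1
  have e1 : a * (N / a) = N := Nat.mul_div_cancel' haN
  have e2 : b * (N / b) = N := Nat.mul_div_cancel' h3
  have h5 : b ≤ N / b := (Nat.le_div_iff_mul_le hb).2 h2
  have h6 := main a (N / a) b (N / b) k ha (e1.trans e2.symm) h1 (h1.trans h5) h4 (by rw [e1]; exact hk)
  rw [e1, e2] at h6
  exact h6

theorem chain_mult (N k a b : ℕ) (ha : 1 ≤ a) (haN : a ∣ N) (hk : 2 * k ≤ N)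
    (h : Relation.ReflTransGen (Link N) a b) :
    (1 ≤ b ∧ b ∣ N) ∧ mult N k a (N / a) ≤ mult N k b (N / b) := by
  induction h with
  | refl => exact ⟨⟨ha, haN⟩, le_rfl⟩
  | tail _ h2 ih =>
    exact ⟨⟨ih.1.1.trans h2.1, h2.2.2.1⟩, ih.2.trans (link_mult N k _ _ ih.1.1 ih.1.2 hk h2)⟩

/-- the inequality for a chain from `m` to `min p q` -/
theorem main_chain (m n p q k : ℕ) (hm : 1 ≤ m) (h : m * n = p * q) (hp : m ≤ p) (hq : m ≤ q)
    (hd : Relation.ReflTransGen (Link (m * n)) m (min p q)) (hk : 2 * k ≤ m * n) :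
    mult (m * n) k n m ≤ mult (p * q) k q p ∧ mult (m * n) k m n ≤ mult (p * q) k p q := by
  have hp1 : 1 ≤ p := hm.trans hp
  have hq1 : 1 ≤ q := hm.trans hq
  have hpq : 1 ≤ p * q := Nat.mul_pos hp1 hq1
  have hn : 1 ≤ n := by
    rcases Nat.eq_zero_or_pos n with h0 | h0
    · rw [h0, Nat.mul_zero] at h
      omega
    · exact h0
  have h1 := (chain_mult (m * n) k m (min p q) hm (Dvd.intro _ rfl) hk hd).2
  rw [Nat.mul_div_cancel_left n hm] at h1
  have h2 : mult (p * q) k q p = mult (p * q) k p q := mult_swap p q k hp1 hq1 (h ▸ hk)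
  have h3 : mult (m * n) k n m = mult (m * n) k m n := mult_swap m n k hm hn hk
  have h4 : mult (m * n) k m n ≤ mult (p * q) k p q := by
    refine h1.trans (le_of_eq ?_)
    rcases le_total p q with h5 | h5
    · rw [min_eq_left h5, h, Nat.mul_div_cancel_left q hp1]
    · rw [min_eq_right h5, h, Nat.mul_div_cancel p hq1, h2]
  exact ⟨by rw [h2, h3]; exact h4, h4⟩

/-- if `m ^ 2 ≤ 2 min(p, q)` there is a chain of length at most two -/
theorem chain_of_large_aux (m n p q : ℕ) (hm : 1 ≤ m) (h : m * n = p * q) (hpq : p ≤ q)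
    (hl : m * m ≤ 2 * p) (hp : m ≤ p) : Relation.ReflTransGen (Link (m * n)) m p := by
  have hp1 : 1 ≤ p := hm.trans hp
  have hq1 : 1 ≤ q := hp1.trans hpq
  have hdp : p ∣ m * n := ⟨q, h⟩
  have hpp : p * p ≤ m * n := by rw [h]; exact Nat.mul_le_mul_left p hpq
  have hdiv : m * n / p = q := by rw [h, Nat.mul_div_cancel_left q hp1]
  by_cases c1 : m ∣ p ∨ m ∣ q
  · exact Relation.ReflTransGen.single ⟨hp, hpp, hdp, by rw [hdiv]; exact c1⟩
  · push Not at c1
    obtain ⟨c1, c2⟩ := c1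
    -- `g = gcd m q`, `d = m / g`
    have hmd : m ∣ p * q := ⟨n, h.symm⟩
    obtain ⟨d, hd⟩ := Nat.gcd_dvd_left m q
    obtain ⟨e, he⟩ := Nat.gcd_dvd_right m q
    set g := Nat.gcd m q with hg
    have hg1 : 1 ≤ g := Nat.pos_of_ne_zero fun h0 => by rw [h0] at hd; omega
    have hd1 : 1 ≤ d := Nat.pos_of_ne_zero fun h0 => by rw [h0] at hd; omega
    have hcop : Nat.Coprime d e := by
      have h7 : Nat.gcd (g * d) (g * e) = g := by rw [← hd, ← he]
      rw [Nat.gcd_mul_left] at h7
      exact Nat.eq_of_mul_eq_mul_left hg1 (by rw [h7, Nat.mul_one])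
    have hdp2 : d ∣ p := by
      have h7 : g * d ∣ g * (p * e) := by
        have : g * (p * e) = p * q := by rw [he]; ring
        rw [this, ← hd]
        exact hmd
      exact hcop.dvd_of_dvd_mul_right (Nat.dvd_of_mul_dvd_mul_left hg1 h7)
    have hg2 : 2 ≤ g := by
      by_contra h8
      have h9 : g = 1 := by omega
      apply c1
      rw [h9, Nat.one_mul] at hd
      rw [hd]
      exact hdp2
    obtain ⟨s, hs⟩ := hdp2
    have hs1 : 1 ≤ s := Nat.pos_of_ne_zero fun h0 => by rw [h0] at hs; omega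
    -- `s = p / d`, the pair `(s, d q)`
    have hms : m ≤ s := by
      have h8 : m * d ≤ s * d := by
        have h9 : g * (m * d) ≤ 2 * p := by
          have : g * (m * d) = m * m := by rw [Nat.mul_left_comm, ← hd]
          rw [this]
          exact hl
        have h10 : 2 * (m * d) ≤ g * (m * d) := Nat.mul_le_mul_right _ hg2
        have h11 : m * d ≤ p := by omega
        rw [Nat.mul_comm s d, ← hs]
        exact h11
      exact Nat.le_of_mul_le_mul_right h8 hd1
    have hsp : s ≤ p := by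
      rw [hs]
      exact Nat.le_mul_of_pos_left s hd1
    have hsN : m * n = s * (d * q) := by rw [h, hs]; ring
    have hssN : s * s ≤ m * n := (Nat.mul_le_mul hsp hsp).trans hpp
    have hsdiv : m * n / s = d * q := by rw [hsN, Nat.mul_div_cancel_left _ hs1]
    refine (Relation.ReflTransGen.single (b := s) ?_).tail ?_
    · refine ⟨hms, hssN, ⟨_, hsN⟩, Or.inr ?_⟩
      rw [hsdiv, he]
      refine ⟨e, ?_⟩
      rw [hd]
      ring
    · exact ⟨hsp, hpp, hdp, Or.inl ⟨d, by rw [hs]; ring⟩⟩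

theorem chain_of_large (m n p q : ℕ) (hm : 1 ≤ m) (h : m * n = p * q) (hp : m ≤ p) (hq : m ≤ q)
    (hl : m * m ≤ 2 * min p q) : Relation.ReflTransGen (Link (m * n)) m (min p q) := by
  rcases le_total p q with h5 | h5
  · rw [min_eq_left h5] at hl ⊢
    exact chain_of_large_aux m n p q hm h h5 hl hp
  · rw [min_eq_right h5] at hl ⊢
    exact chain_of_large_aux m n q p hm (by rw [h, Nat.mul_comm]) h5 hl hq

theorem chain_of_dvd (m n p q : ℕ) (hm : 1 ≤ m) (h : m * n = p * q) (hp : m ≤ p) (hq : m ≤ q)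
    (hd : m ∣ p ∨ m ∣ q) : Relation.ReflTransGen (Link (m * n)) m (min p q) := by
  have hp1 : 1 ≤ p := hm.trans hp
  have hq1 : 1 ≤ q := hm.trans hq
  refine Relation.ReflTransGen.single ⟨le_min hp hq, ?_, ?_, ?_⟩
  · rw [h]
    exact Nat.mul_le_mul (min_le_left _ _) (min_le_right _ _)
  · rcases le_total p q with h5 | h5
    · rw [min_eq_left h5]
      exact ⟨q, h⟩
    · rw [min_eq_right h5]
      exact ⟨p, by rw [h, Nat.mul_comm]⟩
  · rcases le_total p q with h5 | h5
    · rw [min_eq_left h5, h, Nat.mul_div_cancel_left q hp1]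
      exact hd
    · rw [min_eq_right h5, h, Nat.mul_div_cancel p hq1]
      exact hd.symm

end Helper87.TR
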